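import Mathlib

set_option autoImplicit false

/-! Counting of the critical points of an Appell sequence of real polynomials, and the key lemma. -/

namespace Pool.Agent.R865.CH
open Set Filter Topology

/-- the real zeros of `P k` -/
noncomputable def Z (P : ℕ → Polynomial ℝ) (k : ℕ) : Finset ℝ := (P k).roots.toFinset

open Classical in
/-- the zeros of `P k` at which `P (k+1) ^ 2` has no local maximum -/
noncomputable def E (P : ℕ → Polynomial ℝ) (k : ℕ) : Finset ℝ :=
  (Z P k).filter (fun e => ¬ IsLocalMax (fun t => ((P (k + 1)).eval t) ^ 2) e)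

lemma mem_Z {P : ℕ → Polynomial ℝ} (h0 : ∀ k, P k ≠ 0) (k : ℕ) (t : ℝ) :
    t ∈ Z P k ↔ (P k).eval t = 0 := by
  rw [Z, Multiset.mem_toFinset, Polynomial.mem_roots (h0 k), Polynomial.IsRoot.def]

lemma count_step {P : ℕ → Polynomial ℝ} (h0 : ∀ k, P k ≠ 0)
    (hd : ∀ k, (P (k + 1)).derivative = ((k : ℝ) + 1) • P k) (k : ℕ) :
    (Z P (k + 1)).card + (E P k).card ≤ (Z P k).card + 1 := by
  classical
  have hsub : E P k ⊆ Z P k := Finset.filter_subset _ _
  have h1 : (Z P (k + 1)).card ≤ (Z P k \ E P k).card + 1 := by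
    apply Finset.card_le_of_interleaved
    intro x hx y hy hxy hno
    have hcont : Continuous (fun t : ℝ => ((P (k + 1)).eval t) ^ 2) := by fun_prop
    obtain ⟨m, hm, hmax⟩ := isCompact_Icc.exists_isMaxOn (nonempty_Icc.2 hxy.le)
      (hcont.continuousOn (s := Icc x y))
    have hmid : (P (k + 1)).eval ((x + y) / 2) ≠ 0 := by
      intro h
      exact hno _ ((mem_Z h0 _ _).2 h) ⟨by linarith, by linarith⟩
    have hpos : 0 < ((P (k + 1)).eval m) ^ 2 :=
      lt_of_lt_of_le (by positivity : 0 < ((P (k + 1)).eval ((x + y) / 2)) ^ 2)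
        (hmax ⟨by linarith, by linarith⟩)
    have hmx : m ≠ x := by
      rintro rfl
      rw [(mem_Z h0 _ _).1 hx] at hpos
      norm_num at hpos
    have hmy : m ≠ y := by
      rintro rfl
      rw [(mem_Z h0 _ _).1 hy] at hpos
      norm_num at hpos
    have hxm : x < m := lt_of_le_of_ne hm.1 (Ne.symm hmx)
    have hmy' : m < y := lt_of_le_of_ne hm.2 hmy
    have hloc : IsLocalMax (fun t : ℝ => ((P (k + 1)).eval t) ^ 2) m :=
      hmax.isLocalMax (Icc_mem_nhds hxm hmy')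
    have hder : HasDerivAt (fun t : ℝ => ((P (k + 1)).eval t) ^ 2)
        (2 * (P (k + 1)).eval m * ((P (k + 1)).derivative.eval m)) m := by
      have := ((P (k + 1)).hasDerivAt m).fun_pow 2
      simpa using this
    have hz := hloc.hasDerivAt_eq_zero hder
    rw [hd, Polynomial.eval_smul, smul_eq_mul] at hz
    have hne : (P (k + 1)).eval m ≠ 0 := by
      intro h; rw [h] at hpos; norm_num at hpos
    have hk : ((k : ℝ) + 1) ≠ 0 := by positivity
    have hmz : (P k).eval m = 0 := by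
      rcases mul_eq_zero.1 hz with h | h
      · rcases mul_eq_zero.1 h with h | h
        · norm_num at h
        · exact absurd h hne
      · rcases mul_eq_zero.1 h with h | h
        · exact absurd h hk
        · exact h
    refine ⟨m, ?_, hxm, hmy'⟩
    rw [Finset.mem_sdiff]
    refine ⟨(mem_Z h0 _ _).2 hmz, ?_⟩
    intro hE
    rw [E, Finset.mem_filter] at hE
    exact hE.2 hloc
  have h2 := Finset.card_sdiff_add_card_eq_card hsub
  omega

lemma count_sum {P : ℕ → Polynomial ℝ} (h0 : ∀ k, P k ≠ 0)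
    (hd : ∀ k, (P (k + 1)).derivative = ((k : ℝ) + 1) • P k) (hZ : (Z P 0).card = 0) (M : ℕ) :
    (Z P M).card + ∑ k ∈ Finset.range M, (E P k).card ≤ M := by
  induction M with
  | zero => simp [hZ]
  | succ M ih =>
    rw [Finset.sum_range_succ]
    have := count_step h0 hd M
    omega

/-- Abel summation -/
lemma abel {s w : ℕ → ℝ} (hs : ∀ M : ℕ, ∑ k ∈ Finset.range M, s k ≤ M) (hw : Antitone w)
    (M : ℕ) : ∑ k ∈ Finset.range M, s k * w k + (M - ∑ k ∈ Finset.range M, s k) * w M ≤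
      ∑ k ∈ Finset.range M, w k := by
  induction M with
  | zero => simp
  | succ M ih =>
    rw [Finset.sum_range_succ, Finset.sum_range_succ (fun k => w k)]
    have h1 := hs (M + 1)
    have h2 := hw (Nat.le_succ M)
    rw [Finset.sum_range_succ] at h1 ⊢
    push_cast at h1 ⊢
    have h3 : ((M : ℝ) + 1 - (∑ k ∈ Finset.range M, s k + s M)) * w (M + 1) ≤
        ((M : ℝ) + 1 - (∑ k ∈ Finset.range M, s k + s M)) * w M :=
      mul_le_mul_of_nonneg_left h2 (by linarith)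
    nlinarith

lemma summable_abel {s : ℕ → ℝ} (hs0 : ∀ k, 0 ≤ s k)
    (hs : ∀ M : ℕ, ∑ k ∈ Finset.range M, s k ≤ M) :
    Summable (fun k : ℕ => s k * (1 / ((k : ℝ) + 1) ^ 2)) := by
  have hw : Antitone (fun k : ℕ => 1 / ((k : ℝ) + 1) ^ 2) := by
    intro a b hab
    have : (a : ℝ) ≤ b := by exact_mod_cast hab
    apply one_div_le_one_div_of_le (by positivity)
    gcongr
  have hsum : Summable (fun k : ℕ => 1 / ((k : ℝ) + 1) ^ 2) := by
    have h := (summable_nat_add_iff 1).2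
      (Real.summable_one_div_nat_pow.2 (show 1 < 2 by norm_num))
    refine h.congr fun k => ?_
    push_cast
    rfl
  apply summable_of_sum_range_le (c := ∑' k : ℕ, 1 / ((k : ℝ) + 1) ^ 2)
  · intro k
    have := hs0 k
    positivity
  · intro M
    have h1 := abel hs hw M
    have h2 : 0 ≤ ((M : ℝ) - ∑ k ∈ Finset.range M, s k) * (1 / ((M : ℝ) + 1) ^ 2) :=
      mul_nonneg (by linarith [hs M]) (by positivity)
    have h3 := hsum.sum_le_tsum (Finset.range M) (fun k _ => by positivity)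
    linarith

lemma not_localMax {h : ℝ → ℝ} {c t : ℝ} (hct : c < t) (hh : ∀ s ∈ Ico c t, h t < h s) :
    ¬ IsLocalMax h t := by
  intro hmax
  have h1 : ∀ᶠ s in 𝓝[<] t, h s ≤ h t := hmax.filter_mono nhdsWithin_le_nhds
  have h2 : ∀ᶠ s in 𝓝[<] t, s ∈ Ico c t := Ico_mem_nhdsLT hct
  obtain ⟨s, hs1, hs2⟩ := (h1.and h2).exists
  exact absurd (hh s hs2) (not_lt.2 hs1)

lemma le_of_Ico {g : ℝ → ℝ} (hg : Continuous g) {c t b : ℝ} (hct : c < t)
    (h : ∀ s ∈ Ico c t, g s ≤ b) : g t ≤ b := by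
  have h1 : Tendsto g (𝓝[<] t) (𝓝 (g t)) := hg.continuousAt.mono_left nhdsWithin_le_nhds
  exact le_of_tendsto h1 (mem_of_superset (Ico_mem_nhdsLT hct) h)

section Key
variable {n : ℕ} {f : ℕ → ℝ → ℝ}

lemma mono' (hf : ∀ i t, HasDerivAt (f (i + 1)) (((n : ℝ) + i + 1) * f i t) t) (i : ℕ) {c t : ℝ}
    (h : ∀ s ∈ Ioo c t, 0 < f i s) : StrictMonoOn (f (i + 1)) (Icc c t) := by
  apply strictMonoOn_of_deriv_pos (convex_Icc c t)
  · exact fun s _ => (hf i s).continuousAt.continuousWithinAt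
  · rw [interior_Icc]
    intro s hs
    rw [(hf i s).deriv]
    have := h s hs
    positivity

lemma anti' (hf : ∀ i t, HasDerivAt (f (i + 1)) (((n : ℝ) + i + 1) * f i t) t) (i : ℕ) {c t : ℝ}
    (h : ∀ s ∈ Ioo c t, f i s < 0) : StrictAntiOn (f (i + 1)) (Icc c t) := by
  apply strictAntiOn_of_deriv_neg (convex_Icc c t)
  · exact fun s _ => (hf i s).continuousAt.continuousWithinAt
  · rw [interior_Icc]
    intro s hs
    rw [(hf i s).deriv]
    have h1 := h s hs
    have h2 : (0 : ℝ) < (n : ℝ) + i + 1 := by positivity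
    nlinarith

lemma lower' (hn : 5 ≤ n) (hf : ∀ i t, HasDerivAt (f (i + 1)) (((n : ℝ) + i + 1) * f i t) t)
    {i : ℕ} (hi : i ≤ 4) {c t b : ℝ} (hb : 0 ≤ b) (hct : c < t) (htc : t ≤ c + 1 / n)
    (h : ∀ s ∈ Ioo c t, - b ≤ f i s) : f (i + 1) c - 2 * b ≤ f (i + 1) t := by
  obtain ⟨ξ, hξ, he⟩ := exists_hasDerivAt_eq_slope (f (i + 1)) (fun s => ((n : ℝ) + i + 1) * f i s)
    hct (fun s _ => (hf i s).continuousAt.continuousWithinAt) (fun s _ => hf i s)
  have h1 := h ξ hξ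
  have hn0 : (0 : ℝ) < n := by exact_mod_cast (by omega : 0 < n)
  have h2 : ((n : ℝ) + i + 1) * (t - c) ≤ 2 := by
    have h3 : (n : ℝ) + i + 1 ≤ 2 * n := by
      have h5 : (5 : ℝ) ≤ n := by exact_mod_cast hn
      have h6 : (i : ℝ) ≤ 4 := by exact_mod_cast hi
      linarith
    calc ((n : ℝ) + i + 1) * (t - c) ≤ (2 * n) * (1 / n) := by
          apply mul_le_mul h3 (by linarith) (by linarith) (by positivity)
      _ = 2 := by field_simp
  have h3 : (t - c) ≠ 0 := by linarith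
  have h4 : f (i + 1) t - f (i + 1) c = (((n : ℝ) + i + 1) * f i ξ) * (t - c) := by
    rw [he]; field_simp
  have h5 : 0 ≤ ((n : ℝ) + i + 1) * (t - c) :=
    mul_nonneg (by positivity) (by linarith)
  have h6 : (((n : ℝ) + i + 1) * f i ξ) * (t - c) = (((n : ℝ) + i + 1) * (t - c)) * f i ξ := by ring
  have h7 : (((n : ℝ) + i + 1) * (t - c)) * (-b) ≤ (((n : ℝ) + i + 1) * (t - c)) * f i ξ :=
    mul_le_mul_of_nonneg_left h1 h5
  nlinarith

lemma key (hn : 5 ≤ n) (hf : ∀ i t, HasDerivAt (f (i + 1)) (((n : ℝ) + i + 1) * f i t) t)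
    (hf0 : Continuous (f 0)) {c : ℝ}
    (h0 : |f 0 c - 1| < 1 / 64) (h1 : |f 1 c + 1 / 32| < 1 / 64) (h2 : |f 2 c - 1| < 1 / 64)
    (h3 : |f 3 c - 1| < 1 / 64) (h4 : |f 4 c + 1 / 4| < 1 / 64) (h5 : |f 5 c - 1| < 1 / 64) :
    ∃ t ∈ Icc c (c + 1 / n), (f 0 t = 0 ∧ ¬ IsLocalMax (fun s => (f 1 s) ^ 2) t) ∨
      (f 1 t = 0 ∧ ¬ IsLocalMax (fun s => (f 2 s) ^ 2) t) ∨
      (f 4 t = 0 ∧ ¬ IsLocalMax (fun s => (f 5 s) ^ 2) t) := by
  rw [abs_lt] at h0 h1 h2 h3 h4 h5
  have hcf : ∀ i, Continuous (f (i + 1)) := fun i =>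
    continuous_iff_continuousAt.2 fun t => (hf i t).continuousAt
  have hn0 : (0 : ℝ) < n := by exact_mod_cast (by omega : 0 < n)
  have hδ : (0 : ℝ) < 1 / n := by positivity
  set B : Set ℝ := Icc c (c + 1 / n) ∩ {t | f 0 t ≤ 0 ∨ 0 ≤ f 1 t} with hB
  have hBc : IsCompact B := by
    apply isCompact_Icc.inter_right
    exact (isClosed_le hf0 continuous_const).union (isClosed_le continuous_const (hcf 0))
  have hcB : c ∉ B := by
    rintro ⟨-, h | h⟩ <;> linarith
  by_cases hBne : B.Nonempty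
  · obtain ⟨t1, ht1B, ht1min⟩ := hBc.exists_isLeast hBne
    have hct : c < t1 := lt_of_le_of_ne ht1B.1.1 (by rintro rfl; exact hcB ht1B)
    have hbefore : ∀ s ∈ Ico c t1, 0 < f 0 s ∧ f 1 s < 0 := by
      intro s hs
      have hsB : s ∉ B := fun h => absurd (ht1min h) (not_le.2 hs.2)
      by_contra hcon
      apply hsB
      refine ⟨⟨hs.1, hs.2.le.trans ht1B.1.2⟩, ?_⟩
      by_cases h' : f 0 s ≤ 0
      · exact Or.inl h'
      · right
        by_contra h''
        exact hcon ⟨not_le.1 h', not_le.1 h''⟩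
    have hm1 : StrictMonoOn (f 1) (Icc c t1) :=
      mono' hf 0 (fun s hs => (hbefore s ⟨hs.1.le, hs.2⟩).1)
    have ha2 : StrictAntiOn (f 2) (Icc c t1) :=
      anti' hf 1 (fun s hs => (hbefore s ⟨hs.1.le, hs.2⟩).2)
    have hf2 : f 2 c - 2 * (1 / 16) ≤ f 2 t1 := by
      apply lower' hn hf (i := 1) (by norm_num) (by norm_num) hct ht1B.1.2
      intro s hs
      have := hm1 (left_mem_Icc.2 hct.le) ⟨hs.1.le, hs.2.le⟩ hs.1
      linarith
    have hf1 : f 1 t1 ≤ 0 := le_of_Ico (hcf 0) hct (fun s hs => (hbefore s hs).2.le)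
    have hf0' : 0 ≤ f 0 t1 := by
      have := le_of_Ico (g := fun s => - f 0 s) hf0.neg hct (b := 0)
        (fun s hs => by have := (hbefore s hs).1; linarith)
      linarith
    refine ⟨t1, ht1B.1, ?_⟩
    by_cases hz : f 1 t1 = 0
    · right; left
      refine ⟨hz, not_localMax hct ?_⟩
      intro s hs
      have h7 := ha2 ⟨hs.1, hs.2.le⟩ (right_mem_Icc.2 hct.le) hs.2
      nlinarith
    · left
      have hlt : f 1 t1 < 0 := lt_of_le_of_ne hf1 hz
      refine ⟨?_, not_localMax hct ?_⟩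
      · rcases ht1B.2 with h | h
        · exact le_antisymm h hf0'
        · exact absurd h (not_le.2 hlt)
      · intro s hs
        have h7 := hm1 ⟨hs.1, hs.2.le⟩ (right_mem_Icc.2 hct.le) hs.2
        nlinarith
  · rw [Set.not_nonempty_iff_eq_empty] at hBne
    set d := c + 1 / n with hd
    have hcd : c < d := by linarith
    have hall : ∀ s ∈ Icc c d, 0 < f 0 s ∧ f 1 s < 0 := by
      intro s hs
      have hsB : s ∉ B := by rw [hBne]; exact Set.notMem_empty s
      by_contra hcon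
      apply hsB
      refine ⟨hs, ?_⟩
      by_cases h' : f 0 s ≤ 0
      · exact Or.inl h'
      · right
        by_contra h''
        exact hcon ⟨not_le.1 h', not_le.1 h''⟩
    have hm1 : StrictMonoOn (f 1) (Icc c d) :=
      mono' hf 0 (fun s hs => (hall s (Ioo_subset_Icc_self hs)).1)
    have hf2 : ∀ t ∈ Ioc c d, 0 < f 2 t := by
      intro t ht
      have := lower' hn hf (i := 1) (by norm_num) (b := 1 / 16) (by norm_num) ht.1 ht.2 (by
        intro s hs
        have := hm1 (left_mem_Icc.2 hcd.le) ⟨hs.1.le, hs.2.le.trans ht.2⟩ hs.1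
        linarith)
      linarith
    have hm3 : StrictMonoOn (f 3) (Icc c d) :=
      mono' hf 2 (fun s hs => hf2 s ⟨hs.1, hs.2.le⟩)
    have hf3 : ∀ t ∈ Icc c d, 63 / 64 ≤ f 3 t := by
      intro t ht
      have := hm3.monotoneOn (left_mem_Icc.2 hcd.le) ht ht.1
      linarith
    have hm4 : StrictMonoOn (f 4) (Icc c d) :=
      mono' hf 3 (fun s hs => by have := hf3 s (Ioo_subset_Icc_self hs); linarith)
    have hf4d : 0 < f 4 d := by
      obtain ⟨ξ, hξ, he⟩ := exists_hasDerivAt_eq_slope (f 4)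
        (fun s => ((n : ℝ) + (3 : ℕ) + 1) * f 3 s)
        hcd (fun s _ => (hf 3 s).continuousAt.continuousWithinAt) (fun s _ => hf 3 s)
      have h6 := hf3 ξ (Ioo_subset_Icc_self hξ)
      have h7 : d - c = 1 / n := by rw [hd]; ring
      rw [h7] at he
      have h8 : f 4 d - f 4 c = (((n : ℝ) + (3 : ℕ) + 1) * f 3 ξ) * (1 / n) := by
        rw [he]; field_simp
      have h9 : (1 : ℝ) ≤ ((n : ℝ) + (3 : ℕ) + 1) * (1 / n) := by
        rw [mul_one_div, le_div_iff₀ hn0]; push_cast; linarith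
      have h10 : (((n : ℝ) + (3 : ℕ) + 1) * f 3 ξ) * (1 / n) =
          (((n : ℝ) + (3 : ℕ) + 1) * (1 / n)) * f 3 ξ := by ring
      nlinarith
    obtain ⟨t2, ht2, hz⟩ := intermediate_value_Icc hcd.le ((hcf 3).continuousOn (s := Icc c d))
      (show (0 : ℝ) ∈ Icc (f 4 c) (f 4 d) from ⟨by linarith, hf4d.le⟩)
    have hct2 : c < t2 := lt_of_le_of_ne ht2.1 (by rintro rfl; rw [hz] at h4; linarith)
    have hneg : ∀ s ∈ Ico c t2, f 4 s < 0 := by
      intro s hs
      rw [← hz]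
      exact hm4 ⟨hs.1, hs.2.le.trans ht2.2⟩ ht2 hs.2
    have ha5 : StrictAntiOn (f 5) (Icc c t2) :=
      anti' hf 4 (fun s hs => hneg s ⟨hs.1.le, hs.2⟩)
    have hf5 : f 5 c - 2 * (17 / 64) ≤ f 5 t2 := by
      apply lower' hn hf (i := 4) (by norm_num) (by norm_num) hct2 ht2.2
      intro s hs
      have := hm4 (left_mem_Icc.2 hcd.le) ⟨hs.1.le, hs.2.le.trans ht2.2⟩ hs.1
      linarith
    refine ⟨t2, ht2, Or.inr (Or.inr ⟨hz, not_localMax hct2 ?_⟩)⟩
    intro s hs
    have h7 := ha5 ⟨hs.1, hs.2.le⟩ (right_mem_Icc.2 hct2.le) hs.2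
    nlinarith

end Key

end Pool.Agent.R865.CH
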