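import Mathlib
import Pool.Agent.R865.CH.A

set_option autoImplicit false

/-! The measure argument for an Appell sequence of real polynomials. -/

namespace Pool.Agent.R865.CH
open Set Filter Topology MeasureTheory
open scoped ENNReal

/-- the target condition -/
def Good (P : ℕ → Polynomial ℝ) (n : ℕ) (a c : ℝ) : Prop :=
  |a ^ n * (P n).eval c - 1| < 1 / 64 ∧ |a ^ n * (P (n + 1)).eval c + 1 / 32| < 1 / 64 ∧
  |a ^ n * (P (n + 2)).eval c - 1| < 1 / 64 ∧ |a ^ n * (P (n + 3)).eval c - 1| < 1 / 64 ∧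
  |a ^ n * (P (n + 4)).eval c + 1 / 4| < 1 / 64 ∧ |a ^ n * (P (n + 5)).eval c - 1| < 1 / 64

/-- the extra zeros used for `n` -/
noncomputable def F (P : ℕ → Polynomial ℝ) (n : ℕ) : Finset ℝ :=
  letI := Classical.decEq ℝ
  E P n ∪ E P (n + 1) ∪ E P (n + 4)

lemma mem_E {P : ℕ → Polynomial ℝ} (h0 : ∀ k, P k ≠ 0) {k : ℕ} {p t : ℝ} (hp : 0 < p)
    (h1 : p * (P k).eval t = 0)
    (h2 : ¬ IsLocalMax (fun s => (p * (P (k + 1)).eval s) ^ 2) t) : t ∈ E P k := by
  classical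
  rw [E, Finset.mem_filter, mem_Z h0]
  refine ⟨(mul_eq_zero.1 h1).resolve_left hp.ne', ?_⟩
  intro h
  apply h2
  unfold IsLocalMax IsMaxFilter at h ⊢
  filter_upwards [h] with s hs
  rw [mul_pow, mul_pow]
  exact mul_le_mul_of_nonneg_left hs (by positivity)

lemma exists_mem_F {P : ℕ → Polynomial ℝ} (h0 : ∀ k, P k ≠ 0)
    (hd : ∀ k, (P (k + 1)).derivative = ((k : ℝ) + 1) • P k) {n : ℕ} (hn : 5 ≤ n) {a c : ℝ}
    (ha : 0 < a) (hg : Good P n a c) : ∃ e ∈ F P n, c ∈ Icc (e - 1 / n) e := by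
  classical
  obtain ⟨g0, g1, g2, g3, g4, g5⟩ := hg
  have hp : 0 < a ^ n := by positivity
  obtain ⟨t, ht, h⟩ := key hn (f := fun i s => a ^ n * (P (n + i)).eval s) (c := c)
    (by
      intro i t
      have h1 := ((P (n + i + 1)).hasDerivAt t).const_mul (a ^ n)
      rw [hd, Polynomial.eval_smul, smul_eq_mul] at h1
      have e : a ^ n * ((((n + i : ℕ) : ℝ) + 1) * (P (n + i)).eval t) =
          ((n : ℝ) + i + 1) * (a ^ n * (P (n + i)).eval t) := by push_cast; ring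
      rw [e] at h1
      exact h1) (by fun_prop) g0 g1 g2 g3 g4 g5
  refine ⟨t, ?_, ⟨by linarith [ht.2], ht.1⟩⟩
  rw [F, Finset.mem_union, Finset.mem_union]
  rcases h with ⟨h1, h2⟩ | ⟨h1, h2⟩ | ⟨h1, h2⟩
  · exact Or.inl (Or.inl (mem_E h0 hp h1 h2))
  · exact Or.inl (Or.inr (mem_E h0 hp h1 h2))
  · exact Or.inr (mem_E h0 hp h1 h2)

lemma slice_diam {P : ℕ → Polynomial ℝ} {n : ℕ} (hn : 1 ≤ n) {a a' c : ℝ} (ha : 1 ≤ a)
    (haa : a ≤ a') (ha' : a ≤ 2) (hg : Good P n a c) (hg' : Good P n a' c) :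
    a' - a ≤ 1 / n := by
  have h1 := hg.2.2.1
  have h2 := hg'.2.2.1
  rw [abs_lt] at h1 h2
  have hn0 : (0 : ℝ) < n := by exact_mod_cast (by omega : 0 < n)
  have ha0 : 0 < a := by linarith
  set g := (P (n + 2)).eval c with hgdef
  set r := a' / a with hr
  have hra : r * a = a' := by rw [hr]; field_simp
  have hr1 : 1 ≤ r := by rw [hr, le_div_iff₀ ha0]; linarith
  have hrn : r ^ n < 65 / 63 := by
    by_contra hcon
    push Not at hcon
    have h3 : a' ^ n = r ^ n * a ^ n := by rw [← mul_pow, hra]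
    rw [h3] at h2
    have h4 : (65 / 63 : ℝ) * (a ^ n * g) ≤ r ^ n * (a ^ n * g) :=
      mul_le_mul_of_nonneg_right hcon (by linarith)
    nlinarith
  have hB := one_add_mul_le_pow (a := r - 1) (by linarith) n
  rw [show 1 + (r - 1) = r by ring] at hB
  have h5 : (n : ℝ) * (r - 1) < 2 / 63 := by linarith
  have h6 : a' - a = a * (r - 1) := by rw [← hra]; ring
  rw [le_div_iff₀ hn0, h6]
  have h7 : a * (r - 1) * n = a * (n * (r - 1)) := by ring
  have h8 : 0 ≤ (n : ℝ) * (r - 1) := mul_nonneg hn0.le (by linarith)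
  rw [h7]
  nlinarith

lemma slice_vol {P : ℕ → Polynomial ℝ} {n : ℕ} (hn : 1 ≤ n) (c : ℝ) :
    volume {a : ℝ | a ∈ Icc (1 : ℝ) 2 ∧ Good P n a c} ≤ ENNReal.ofReal (1 / n) := by
  refine (Real.volume_le_diam _).trans ?_
  apply Metric.ediam_le
  rintro a ⟨ha, hga⟩ a' ⟨ha', hga'⟩
  rw [edist_dist]
  apply ENNReal.ofReal_le_ofReal
  rw [Real.dist_eq, abs_le]
  rcases le_total a a' with h | h
  · have := slice_diam hn ha.1 h ha.2 hga hga'
    have h0 : (0 : ℝ) ≤ 1 / n := by positivity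
    constructor <;> linarith
  · have := slice_diam hn ha'.1 h ha'.2 hga' hga
    have h0 : (0 : ℝ) ≤ 1 / n := by positivity
    constructor <;> linarith

/-- the places `c` near the extra zeros -/
def J (P : ℕ → Polynomial ℝ) (n : ℕ) : Set ℝ := ⋃ e ∈ F P n, Icc (e - 1 / n) e

lemma J_meas (P : ℕ → Polynomial ℝ) (n : ℕ) : MeasurableSet (J P n) :=
  Finset.measurableSet_biUnion _ (fun _ _ => measurableSet_Icc)

lemma J_vol (P : ℕ → Polynomial ℝ) (n : ℕ) :
    volume (J P n) ≤ (F P n).card * ENNReal.ofReal (1 / n) := by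
  refine (measure_biUnion_finset_le _ _).trans ?_
  simp [Real.volume_Icc]

/-- the bound of the slices -/
noncomputable def hh (P : ℕ → Polynomial ℝ) (n : ℕ) : ℝ → ℝ≥0∞ :=
  (J P n).indicator (fun _ => ENNReal.ofReal (1 / n))

lemma slice_le {P : ℕ → Polynomial ℝ} (h0 : ∀ k, P k ≠ 0)
    (hd : ∀ k, (P (k + 1)).derivative = ((k : ℝ) + 1) • P k) {n : ℕ} (hn : 5 ≤ n) (c : ℝ) :
    volume {a : ℝ | a ∈ Icc (1 : ℝ) 2 ∧ Good P n a c} ≤ hh P n c := by
  by_cases hc : c ∈ J P n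
  · rw [hh, indicator_of_mem hc]
    exact slice_vol (by omega) c
  · have : {a : ℝ | a ∈ Icc (1 : ℝ) 2 ∧ Good P n a c} = ∅ := by
      ext a
      simp only [mem_ofPred_eq, mem_empty_iff_false, iff_false]
      rintro ⟨ha, hg⟩
      obtain ⟨e, he, hce⟩ := exists_mem_F h0 hd hn (by linarith [ha.1]) hg
      apply hc
      rw [J, mem_iUnion₂]
      exact ⟨e, he, hce⟩
    rw [this, measure_empty]
    exact zero_le

lemma summable_F {P : ℕ → Polynomial ℝ} (h0 : ∀ k, P k ≠ 0)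
    (hd : ∀ k, (P (k + 1)).derivative = ((k : ℝ) + 1) • P k) (hZ : (Z P 0).card = 0) :
    Summable (fun n : ℕ => ((F P n).card : ℝ) / (n : ℝ) ^ 2) := by
  classical
  set s : ℕ → ℝ := fun k => ((E P k).card : ℝ) with hs
  have hs0 : ∀ k, 0 ≤ s k := fun k => Nat.cast_nonneg _
  have hsum : ∀ M : ℕ, ∑ k ∈ Finset.range M, s k ≤ M := by
    intro M
    have := count_sum h0 hd hZ M
    have h2 : ∑ k ∈ Finset.range M, (E P k).card ≤ M := by omega
    have h3 : ((∑ k ∈ Finset.range M, (E P k).card : ℕ) : ℝ) ≤ M := by exact_mod_cast h2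
    rw [hs]
    push_cast at h3
    exact h3
  have hS := summable_abel hs0 hsum
  have hS1 := (summable_nat_add_iff 1).2 hS
  have hS4 := (summable_nat_add_iff 4).2 hS
  have hall := ((hS.add hS1).add hS4).mul_left 36
  refine Summable.of_norm_bounded_eventually_nat hall ?_
  filter_upwards [eventually_ge_atTop 1] with n hn
  have hn1 : (1 : ℝ) ≤ n := by exact_mod_cast hn
  have hn0 : (0 : ℝ) < n := by linarith
  have hcard : ((F P n).card : ℝ) ≤ s n + s (n + 1) + s (n + 4) := by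
    have h1 : (F P n).card ≤ (E P n).card + (E P (n + 1)).card + (E P (n + 4)).card := by
      rw [F]
      refine (Finset.card_union_le _ _).trans ?_
      gcongr
      exact Finset.card_union_le _ _
    show ((F P n).card : ℝ) ≤ ((E P n).card : ℝ) + ((E P (n + 1)).card : ℝ) +
      ((E P (n + 4)).card : ℝ)
    exact_mod_cast h1
  rw [Real.norm_eq_abs, abs_of_nonneg (by positivity)]
  have hb : ∀ i : ℕ, i ≤ 4 → 1 / (n : ℝ) ^ 2 ≤ 36 * (1 / (((n + i : ℕ) : ℝ) + 1) ^ 2) := by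
    intro i hi
    have hi' : (i : ℝ) ≤ 4 := by exact_mod_cast hi
    rw [mul_one_div, div_le_div_iff₀ (by positivity) (by positivity)]
    push_cast
    have h6 : (n : ℝ) + i + 1 ≤ 6 * n := by linarith
    have h7 : ((n : ℝ) + i + 1) ^ 2 ≤ (6 * n) ^ 2 := pow_le_pow_left₀ (by positivity) h6 2
    nlinarith
  have b0 := hb 0 (by norm_num)
  have b1 := hb 1 (by norm_num)
  have b4 := hb 4 (by norm_num)
  calc ((F P n).card : ℝ) / (n : ℝ) ^ 2 ≤ (s n + s (n + 1) + s (n + 4)) / (n : ℝ) ^ 2 := by gcongr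
    _ = s n * (1 / (n : ℝ) ^ 2) + s (n + 1) * (1 / (n : ℝ) ^ 2) + s (n + 4) * (1 / (n : ℝ) ^ 2) := by
        ring
    _ ≤ s n * (36 * (1 / (((n + 0 : ℕ) : ℝ) + 1) ^ 2)) +
        s (n + 1) * (36 * (1 / (((n + 1 : ℕ) : ℝ) + 1) ^ 2)) +
        s (n + 4) * (36 * (1 / (((n + 4 : ℕ) : ℝ) + 1) ^ 2)) := by
        have := hs0 n
        have := hs0 (n + 1)
        have := hs0 (n + 4)
        gcongr
    _ = _ := by
        simp only [add_zero]
        ring

theorem no_good {P : ℕ → Polynomial ℝ} (h0 : ∀ k, P k ≠ 0)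
    (hd : ∀ k, (P (k + 1)).derivative = ((k : ℝ) + 1) • P k) (hZ : (Z P 0).card = 0)
    (hgood : ∀ a c : ℝ, 0 < a → ∀ N : ℕ, ∃ n, N ≤ n ∧ Good P n a c) : False := by
  have hS := summable_F h0 hd hZ
  set f : ℕ → ℝ≥0∞ := fun n => ENNReal.ofReal (((F P n).card : ℝ) / (n : ℝ) ^ 2) with hf
  have hfs : ∑' n, f n ≠ ∞ := by
    rw [hf, ← ENNReal.ofReal_tsum_of_nonneg (fun n => by positivity) hS]
    exact ENNReal.ofReal_ne_top
  have htail := ENNReal.tendsto_sum_nat_add f hfs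
  obtain ⟨N0, hN0⟩ := (htail.eventually (gt_mem_nhds (show (0 : ℝ≥0∞) < 1 by norm_num))).exists_forall_of_atTop
  set N := max N0 5 with hN
  have hlt : ∑' k, f (k + N) < 1 := hN0 N (le_max_left _ _)
  have hN5 : 5 ≤ N := le_max_right _ _
  have hpt : ∀ c : ℝ, 1 ≤ ∑' k, hh P (k + N) c := by
    intro c
    have h1 : Icc (1 : ℝ) 2 ⊆ ⋃ k : ℕ, {a : ℝ | a ∈ Icc (1 : ℝ) 2 ∧ Good P (k + N) a c} := by
      intro a ha
      obtain ⟨n, hn, hg⟩ := hgood a c (by linarith [ha.1]) N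
      rw [mem_iUnion]
      refine ⟨n - N, ha, ?_⟩
      rw [Nat.sub_add_cancel hn]
      exact hg
    calc (1 : ℝ≥0∞) = volume (Icc (1 : ℝ) 2) := by rw [Real.volume_Icc]; norm_num
      _ ≤ volume (⋃ k : ℕ, {a : ℝ | a ∈ Icc (1 : ℝ) 2 ∧ Good P (k + N) a c}) := measure_mono h1
      _ ≤ ∑' k : ℕ, volume {a : ℝ | a ∈ Icc (1 : ℝ) 2 ∧ Good P (k + N) a c} := measure_iUnion_le _
      _ ≤ ∑' k, hh P (k + N) c := ENNReal.tsum_le_tsum fun k => slice_le h0 hd (by omega) c
  have hint : (1 : ℝ≥0∞) ≤ ∑' k, f (k + N) := by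
    calc (1 : ℝ≥0∞) = ∫⁻ c in Icc (0 : ℝ) 1, 1 := by
          rw [lintegral_const, Measure.restrict_apply MeasurableSet.univ, univ_inter,
            Real.volume_Icc]
          norm_num
      _ ≤ ∫⁻ c in Icc (0 : ℝ) 1, ∑' k, hh P (k + N) c := lintegral_mono fun c => hpt c
      _ = ∑' k, ∫⁻ c in Icc (0 : ℝ) 1, hh P (k + N) c := by
          apply lintegral_tsum
          intro k
          exact (measurable_const.indicator (J_meas P (k + N))).aemeasurable
      _ ≤ ∑' k, f (k + N) := by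
          apply ENNReal.tsum_le_tsum
          intro k
          calc ∫⁻ c in Icc (0 : ℝ) 1, hh P (k + N) c ≤ ∫⁻ c, hh P (k + N) c :=
                setLIntegral_le_lintegral _ _
            _ = ENNReal.ofReal (1 / ((k + N : ℕ) : ℝ)) * volume (J P (k + N)) := by
                rw [hh, lintegral_indicator_const (J_meas P (k + N))]
            _ ≤ ENNReal.ofReal (1 / ((k + N : ℕ) : ℝ)) *
                ((F P (k + N)).card * ENNReal.ofReal (1 / ((k + N : ℕ) : ℝ))) := by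
                gcongr
                exact J_vol P (k + N)
            _ = f (k + N) := by
                rw [hf]
                simp only
                rw [← ENNReal.ofReal_natCast, ← ENNReal.ofReal_mul (by positivity),
                  ← ENNReal.ofReal_mul (by positivity)]
                congr 1
                ring
  exact absurd hint (not_le.2 hlt)

end Pool.Agent.R865.CH
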