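import Mathlib
import Pool.Agent.R865.CH.B

set_option autoImplicit false

/-! From a common hypercyclic vector of the operators `a T + b I` to the Appell sequence of
polynomials `φ ((T + c) ^ m x)`. -/

namespace Pool.Agent.R865.CH
open Set Filter Topology MeasureTheory

variable {X : Type*} [AddCommGroup X] [Module ℝ X] [TopologicalSpace X] [IsTopologicalAddGroup X]
  [ContinuousSMul ℝ X]

/-- the polynomial `c ↦ φ ((T + c) ^ m x)` -/
noncomputable def GP (T : X →L[ℝ] X) (φ : X →L[ℝ] ℝ) (x : X) (m : ℕ) : Polynomial ℝ :=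
  ∑ k ∈ Finset.range (m + 1),
    Polynomial.C ((m.choose k : ℝ) * φ ((T ^ k) x)) * Polynomial.X ^ (m - k)

lemma GP_eval (T : X →L[ℝ] X) (φ : X →L[ℝ] ℝ) (x : X) (m : ℕ) (c : ℝ) :
    (GP T φ x m).eval c = φ (((T + c • (1 : X →L[ℝ] X)) ^ m) x) := by
  have hcomm : Commute T (c • (1 : X →L[ℝ] X)) := (Commute.one_right T).smul_right c
  rw [hcomm.add_pow, GP, Polynomial.eval_finset_sum, ContinuousLinearMap.sum_apply, map_sum]
  refine Finset.sum_congr rfl fun k _ => ?_
  have h1 : (T ^ k * (c • (1 : X →L[ℝ] X)) ^ (m - k) * ((m.choose k : ℕ) : X →L[ℝ] X)) x =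
      ((m.choose k : ℝ) * c ^ (m - k)) • ((T ^ k) x) := by
    rw [smul_pow, one_pow, ← nsmul_eq_mul']
    rw [ContinuousLinearMap.smul_apply, mul_smul_comm, mul_one, ContinuousLinearMap.smul_apply,
      ← Nat.cast_smul_eq_nsmul ℝ, smul_smul]
  rw [h1, map_smul, smul_eq_mul, Polynomial.eval_mul, Polynomial.eval_C, Polynomial.eval_pow,
    Polynomial.eval_X]
  ring

lemma GP_deriv (T : X →L[ℝ] X) (φ : X →L[ℝ] ℝ) (x : X) (m : ℕ) :
    (GP T φ x (m + 1)).derivative = ((m : ℝ) + 1) • GP T φ x m := by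
  rw [GP, GP, Finset.sum_range_succ, Polynomial.derivative_add, Polynomial.derivative_sum,
    Finset.smul_sum]
  have hlast : Polynomial.derivative
      (Polynomial.C (((m + 1).choose (m + 1) : ℝ) * φ ((T ^ (m + 1)) x)) *
        (Polynomial.X : Polynomial ℝ) ^ (m + 1 - (m + 1))) = 0 := by
    rw [Nat.sub_self, pow_zero, mul_one, Polynomial.derivative_C]
  rw [hlast, add_zero]
  refine Finset.sum_congr rfl fun k hk => ?_
  rw [Finset.mem_range] at hk
  rw [Polynomial.derivative_C_mul, Polynomial.derivative_X_pow, ← mul_assoc,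
    ← Polynomial.C_mul, Polynomial.smul_eq_C_mul, ← mul_assoc, ← Polynomial.C_mul]
  have e1 : m + 1 - k - 1 = m - k := by omega
  rw [e1]
  congr 2
  have e2 : ((m + 1).choose k : ℝ) * ((m + 1 - k : ℕ) : ℝ) = ((m : ℝ) + 1) * (m.choose k : ℝ) := by
    have := Nat.choose_mul_succ_eq m k
    have h3 : ((m.choose k * (m + 1) : ℕ) : ℝ) = (((m + 1).choose k * (m + 1 - k) : ℕ) : ℝ) := by
      rw [this]
    push_cast at h3
    linarith
  calc ((m + 1).choose k : ℝ) * φ ((T ^ k) x) * ((m + 1 - k : ℕ) : ℝ) =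
      (((m + 1).choose k : ℝ) * ((m + 1 - k : ℕ) : ℝ)) * φ ((T ^ k) x) := by ring
    _ = _ := by rw [e2]; ring

lemma GP_zero (T : X →L[ℝ] X) (φ : X →L[ℝ] ℝ) (x : X) (hφ : φ x = 1) : GP T φ x 0 = 1 := by
  simp [GP, hφ]

lemma GP_ne (T : X →L[ℝ] X) (φ : X →L[ℝ] ℝ) (x : X) (hφ : φ x = 1) (k : ℕ) :
    GP T φ x k ≠ 0 := by
  induction k with
  | zero => rw [GP_zero T φ x hφ]; exact one_ne_zero
  | succ k ih =>
    intro h
    have h1 := GP_deriv T φ x k
    rw [h, Polynomial.derivative_zero] at h1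
    have h2 : ((k : ℝ) + 1) ≠ 0 := by positivity
    exact ih ((smul_eq_zero.1 h1.symm).resolve_left h2)

lemma GP_Z (T : X →L[ℝ] X) (φ : X →L[ℝ] ℝ) (x : X) (hφ : φ x = 1) :
    (Z (GP T φ x) 0).card = 0 := by
  rw [Z, GP_zero T φ x hφ]
  simp

lemma apply_pow (T : X →L[ℝ] X) (φ : X →L[ℝ] ℝ) (x : X) (a c : ℝ) (n j : ℕ) :
    φ (((T + c • (1 : X →L[ℝ] X)) ^ j) (((a • T + (a * c) • (1 : X →L[ℝ] X)) ^ n) x)) =
      a ^ n * (GP T φ x (n + j)).eval c := by
  have h1 : a • T + (a * c) • (1 : X →L[ℝ] X) = a • (T + c • (1 : X →L[ℝ] X)) := by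
    rw [smul_add, smul_smul]
  rw [h1, smul_pow, ContinuousLinearMap.smul_apply, map_smul, map_smul, smul_eq_mul, GP_eval,
    ← ContinuousLinearMap.mul_apply, ← pow_add, add_comm j n]

lemma exists_large [T1Space X] [Nontrivial X] {S : X →L[ℝ] X} {x : X}
    (h : Dense (range fun n : ℕ => (S ^ n) x)) {U : Set X} (hU : IsOpen U) (hne : U.Nonempty)
    (N : ℕ) : ∃ n, N ≤ n ∧ (S ^ n) x ∈ U := by
  haveI := Module.punctured_nhds_neBot ℝ X
  have h2 := h.diff_finite ((Set.finite_Iio N).image (fun n => (S ^ n) x))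
  obtain ⟨y, hy, hyU⟩ := h2.exists_mem_open hU hne
  obtain ⟨⟨n, rfl⟩, hn⟩ := hy
  refine ⟨n, ?_, hyU⟩
  by_contra hlt
  exact hn ⟨n, not_le.1 hlt, rfl⟩

/-- the functionals `φ ∘ (T + c) ^ j`, `j < 6`, are independent -/
lemma indep {T : X →L[ℝ] X} {φ : X →L[ℝ] ℝ} {x : X} (hφ : φ x = 1)
    (hx : ∀ a b : ℝ, 0 < a → Dense (range fun n : ℕ => ((a • T + b • (1 : X →L[ℝ] X)) ^ n) x))
    (c : ℝ) (z : Fin 6 → ℝ) :
    ∃ y : X, ∀ j : Fin 6, φ (((T + c • (1 : X →L[ℝ] X)) ^ (j : ℕ)) y) = z j := by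
  classical
  set L : X →ₗ[ℝ] (Fin 6 → ℝ) :=
    LinearMap.pi (fun j : Fin 6 => ((φ.comp ((T + c • (1 : X →L[ℝ] X)) ^ (j : ℕ))) : X →ₗ[ℝ] ℝ))
    with hL
  have hLapp : ∀ y j, L y j = φ (((T + c • (1 : X →L[ℝ] X)) ^ (j : ℕ)) y) := fun y j => rfl
  suffices hsurj : Function.Surjective L by
    obtain ⟨y, hy⟩ := hsurj z
    exact ⟨y, fun j => by rw [← hLapp, hy]⟩
  by_contra hns
  have hlt : LinearMap.range L < ⊤ := by
    rw [lt_top_iff_ne_top]
    intro h
    exact hns (LinearMap.range_eq_top.1 h)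
  obtain ⟨f, hf0, hf⟩ := (LinearMap.range L).exists_le_ker_of_lt_top hlt
  set α : Fin 6 → ℝ := fun j => f (fun k => if j = k then 1 else 0) with hα
  have hfsum : ∀ v : Fin 6 → ℝ, f v = ∑ j, v j * α j := by
    intro v
    rw [LinearMap.pi_apply_eq_sum_univ f v]
    rfl
  set g : ℕ → ℝ := fun m => φ (((T + c • (1 : X →L[ℝ] X)) ^ m) x) with hg
  have hrel : ∀ n : ℕ, ∑ j : Fin 6, g (n + j) * α j = 0 := by
    intro n
    have h1 : f (L (((T + c • (1 : X →L[ℝ] X)) ^ n) x)) = 0 := hf ⟨_, rfl⟩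
    rw [hfsum] at h1
    rw [← h1]
    refine Finset.sum_congr rfl fun j _ => ?_
    rw [hLapp, hg, ← ContinuousLinearMap.mul_apply, ← pow_add, add_comm (j : ℕ) n]
  -- the largest index
  have hne : (Finset.univ.filter (fun j : Fin 6 => α j ≠ 0)).Nonempty := by
    by_contra hcon
    rw [Finset.not_nonempty_iff_eq_empty, Finset.filter_eq_empty_iff] at hcon
    apply hf0
    apply LinearMap.ext
    intro v
    rw [hfsum, LinearMap.zero_apply]
    apply Finset.sum_eq_zero
    intro j hj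
    have := hcon hj
    push Not at this
    rw [this, mul_zero]
  set d : Fin 6 := (Finset.univ.filter (fun j : Fin 6 => α j ≠ 0)).max' hne with hd
  have hd0 : α d ≠ 0 := (Finset.mem_filter.1 (Finset.max'_mem _ hne)).2
  have hdmax : ∀ j : Fin 6, α j ≠ 0 → j ≤ d := fun j hj =>
    Finset.le_max' _ j (Finset.mem_filter.2 ⟨Finset.mem_univ _, hj⟩)
  set R : ℝ := 1 + ∑ j, |α j| / |α d| with hR
  set C : ℝ := ∑ j : Fin 6, |g j| with hC
  have hsum0 : 0 ≤ ∑ j, |α j| / |α d| := Finset.sum_nonneg fun j _ => by positivity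
  have hR1 : 1 ≤ R := by rw [hR]; linarith
  have hC0 : 0 ≤ C := Finset.sum_nonneg fun j _ => abs_nonneg _
  have hd1 : 1 ≤ (d : ℕ) := by
    by_contra hcon
    have hd00 : (d : ℕ) = 0 := by omega
    have hz : ∀ j : Fin 6, j ≠ d → α j = 0 := by
      intro j hj
      by_contra h
      have h1 : (j : ℕ) ≤ (d : ℕ) := hdmax j h
      exact hj (Fin.ext (by omega))
    have h1 := hrel 0
    rw [Finset.sum_eq_single d (fun j _ hj => by rw [hz j hj, mul_zero])
      (fun h => absurd (Finset.mem_univ _) h)] at h1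
    rw [hd00, hg] at h1
    simp only [add_zero, pow_zero, ContinuousLinearMap.one_apply, hφ, one_mul] at h1
    exact hd0 h1
  have hbound : ∀ m : ℕ, |g m| ≤ C * R ^ m := by
    intro m
    induction m using Nat.strong_induction_on with
    | _ m ih =>
    by_cases hm : m < (d : ℕ)
    · have h6 : m < 6 := hm.trans d.2
      have h1 : |g m| ≤ C := by
        have := Finset.single_le_sum (f := fun j : Fin 6 => |g j|) (fun j _ => abs_nonneg _)
          (Finset.mem_univ (⟨m, h6⟩ : Fin 6))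
        exact this
      have h2 : 1 ≤ R ^ m := one_le_pow₀ hR1
      nlinarith
    · push Not at hm
      obtain ⟨n, rfl⟩ := Nat.exists_eq_add_of_le hm
      have h1 := hrel n
      rw [← Finset.add_sum_erase Finset.univ _ (Finset.mem_univ d)] at h1
      have h2 : |g (n + d)| * |α d| ≤ ∑ j ∈ Finset.univ.erase d, |g (n + j)| * |α j| := by
        rw [← abs_mul]
        have h3 : g (n + d) * α d = - ∑ j ∈ Finset.univ.erase d, g (n + j) * α j := by linarith
        rw [h3, abs_neg]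
        refine (Finset.abs_sum_le_sum_abs _ _).trans (le_of_eq ?_)
        exact Finset.sum_congr rfl fun j _ => abs_mul _ _
      have h4 : ∑ j ∈ Finset.univ.erase d, |g (n + j)| * |α j| ≤
          ∑ j ∈ Finset.univ.erase d, (C * R ^ ((d : ℕ) + n - 1)) * |α j| := by
        apply Finset.sum_le_sum
        intro j hj
        by_cases hj0 : α j = 0
        · rw [hj0, abs_zero, mul_zero, mul_zero]
        · have hjd : (j : ℕ) < (d : ℕ) := by
            have h5 : (j : ℕ) ≤ (d : ℕ) := hdmax j hj0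
            have h6 : (j : ℕ) ≠ (d : ℕ) := fun h => (Finset.ne_of_mem_erase hj) (Fin.ext h)
            omega
          apply mul_le_mul_of_nonneg_right _ (abs_nonneg _)
          refine (ih (n + j) (by omega)).trans ?_
          apply mul_le_mul_of_nonneg_left _ hC0
          exact pow_le_pow_right₀ hR1 (by omega)
      have h5 : ∑ j ∈ Finset.univ.erase d, (C * R ^ ((d : ℕ) + n - 1)) * |α j| ≤
          (C * R ^ ((d : ℕ) + n - 1)) * ((R - 1) * |α d|) := by
        rw [← Finset.mul_sum]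
        apply mul_le_mul_of_nonneg_left _ (by positivity)
        have h6 : (R - 1) * |α d| = ∑ j, |α j| := by
          rw [hR, add_sub_cancel_left, Finset.sum_mul]
          refine Finset.sum_congr rfl fun j _ => ?_
          rw [div_mul_cancel₀ _ (abs_ne_zero.2 hd0)]
        rw [h6]
        exact Finset.sum_le_sum_of_subset_of_nonneg (Finset.erase_subset _ _)
          (fun j _ _ => abs_nonneg _)
      have h7 : 0 < |α d| := abs_pos.2 hd0
      have h8 : |g (n + d)| * |α d| ≤ (C * R ^ ((d : ℕ) + n - 1) * (R - 1)) * |α d| := by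
        calc _ ≤ _ := h2.trans (h4.trans h5)
          _ = _ := by ring
      have h9 := le_of_mul_le_mul_right h8 h7
      have h10 : C * R ^ ((d : ℕ) + n) = C * R ^ ((d : ℕ) + n - 1) * R := by
        rw [mul_assoc, ← pow_succ]
        congr 2
        omega
      rw [h10, add_comm (d : ℕ) n] at *
      have h11 : 0 ≤ C * R ^ (n + (d : ℕ) - 1) := by positivity
      nlinarith
  -- a small multiple of `T + c` has a bounded orbit under `φ`
  have hR0 : 0 < R := by linarith
  have hU : IsOpen {y : X | C < φ y} := isOpen_lt continuous_const φ.continuous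
  have hUne : ({y : X | C < φ y}).Nonempty := by
    refine ⟨(C + 1) • x, ?_⟩
    show C < φ ((C + 1) • x)
    rw [map_smul, hφ, smul_eq_mul]
    linarith
  obtain ⟨y, hy1, hy2⟩ := (hx (1 / R) (1 / R * c) (by positivity)).exists_mem_open hU hUne
  obtain ⟨n, rfl⟩ := hy1
  have h1 := apply_pow T φ x (1 / R) c n 0
  rw [pow_zero, ContinuousLinearMap.one_apply, GP_eval, add_zero] at h1
  have h2 : C < φ (((1 / R) • T + (1 / R * c) • (1 : X →L[ℝ] X)) ^ n <| x) := hy2
  rw [h1] at h2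
  have h3 := (le_abs_self _).trans (hbound n)
  have h4 : (1 / R) ^ n * g n ≤ (1 / R) ^ n * (C * R ^ n) :=
    mul_le_mul_of_nonneg_left h3 (by positivity)
  have h5 : (1 / R) ^ n * (C * R ^ n) = C := by
    rw [one_div, inv_pow]
    field_simp
  rw [h5] at h4
  exact absurd h2 (not_lt.2 h4)

theorem main [T1Space X] [Nontrivial X] (T : X →L[ℝ] X) (φ : X →L[ℝ] ℝ) (x : X) (hφ : φ x = 1)
    (hx : ∀ a b : ℝ, 0 < a → Dense (range fun n : ℕ => ((a • T + b • (1 : X →L[ℝ] X)) ^ n) x)) :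
    False := by
  apply no_good (P := GP T φ x) (GP_ne T φ x hφ) (GP_deriv T φ x) (GP_Z T φ x hφ)
  intro a c ha N
  set z : Fin 6 → ℝ := ![1, -1 / 32, 1, 1, -1 / 4, 1] with hz
  have hU : IsOpen {y : X | ∀ j : Fin 6,
      |φ (((T + c • (1 : X →L[ℝ] X)) ^ (j : ℕ)) y) - z j| < 1 / 64} := by
    rw [Set.ofPred_forall]
    apply isOpen_iInter_of_finite
    intro j
    apply isOpen_lt _ continuous_const
    fun_prop
  obtain ⟨y, hy⟩ := indep hφ hx c z
  have hne : ({y : X | ∀ j : Fin 6,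
      |φ (((T + c • (1 : X →L[ℝ] X)) ^ (j : ℕ)) y) - z j| < 1 / 64}).Nonempty := by
    refine ⟨y, fun j => ?_⟩
    rw [hy j, sub_self, abs_zero]
    norm_num
  obtain ⟨n, hn, h⟩ := exists_large (hx a (a * c) ha) hU hne N
  refine ⟨n, hn, ?_⟩
  have h' : ∀ j : Fin 6, |a ^ n * (GP T φ x (n + j)).eval c - z j| < 1 / 64 := by
    intro j
    rw [← apply_pow]
    exact h j
  have e0 := h' 0
  have e1 := h' 1
  have e2 := h' 2
  have e3 := h' 3
  have e4 := h' 4
  have e5 := h' 5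
  simp only [hz] at e0 e1 e2 e3 e4 e5
  refine ⟨by simpa using e0, ?_, by simpa using e2, by simpa using e3, ?_, by simpa using e5⟩
  · have : a ^ n * (GP T φ x (n + 1)).eval c + 1 / 32 =
        a ^ n * (GP T φ x (n + 1)).eval c - (-1 / 32) := by ring
    rw [this]
    simpa using e1
  · have : a ^ n * (GP T φ x (n + 4)).eval c + 1 / 4 =
        a ^ n * (GP T φ x (n + 4)).eval c - (-1 / 4) := by ring
    rw [this]
    simpa using e4

end Pool.Agent.R865.CH
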